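import Pool.Agent.Helper81.Tok2.Goals
import Pool.Agent.Helper67.Ram.LINE

/-!
# INNER and LINE for token machines whose silent steps are free
-/

namespace Pool.Agent.Helper27.Tok2

open Pool.Agent.Helper65.LinSpace Pool.Agent.Helper28.Ram Finset
open Pool.Agent.Helper67.Ram Pool.Agent.Helper81.Tok2

theorem INNER : Pool.Agent.Helper81.Tok2.INNER_stmt := by
  intro m p _ N i q F X Y D hN
  have h1 := fhat_sum p hN F q (fun j => if j < i * m.wn then 0 else Y (j - i * m.wn))
    (m.vars p i X D)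
  rw [← h1]
  refine sum_congr rfl fun c _ => ?_
  congr 1
  funext j
  unfold Pool.Agent.Helper81.Tok2.Mach.vars
  by_cases hj : j < i * m.wn
  · simp only [hj, if_true, mul_zero, zero_add]
  · simp only [hj, if_false]

section

variable {p : ℕ}

theorem pd_fhat (N : ℕ) (F : ℕ → ℕ) (q : ℕ) {X : ℕ → ZMod p → ZMod p} (hX : ∀ j, PD 1 (X j)) :
    PD N (fun x => fhat p N F q fun j => X j x) := by
  unfold fhat
  refine PD.sum (range (2 ^ N)) (f := fun a x => bitZ p (F a) q *
    ∏ m ∈ range N, (if dig 2 a m = 1 then X m x else 1 - X m x)) fun a _ => ?_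
  have h1 := PD.prod (range N) (d := fun _ => 1)
    (f := fun o x => if dig 2 a o = 1 then X o x else 1 - X o x) (fun o _ => by
      by_cases hq : dig 2 a o = 1
      · simp only [hq, if_true]
        exact hX o
      · simp only [hq, if_false]
        exact (PD.const 1 1).sub (hX o))
  rw [sum_const, card_range, smul_eq_mul, mul_one] at h1
  have h2 := (PD.const 0 (bitZ p (F a) q)).mul h1
  rw [Nat.zero_add] at h2
  exact h2

theorem pd_vars (m : Pool.Agent.Helper81.Tok2.Mach) (i : ℕ) (D : ℕ → ZMod p)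
    {X : ℕ → ZMod p → ZMod p} (hX : ∀ j, PD 1 (X j)) (j : ℕ) :
    PD 1 (fun x => m.vars p i (fun j => X j x) D j) := by
  unfold Pool.Agent.Helper81.Tok2.Mach.vars
  by_cases hj : j < i * m.wn
  · simp only [hj, if_true]
    exact hX j
  · simp only [hj, if_false]
    exact PD.const _ _

theorem pd_F (m : Pool.Agent.Helper81.Tok2.Mach) (k i y r : ℕ)
    {X : ℕ → ZMod p → ZMod p} (hX : ∀ j, PD 1 (X j)) : ∀ u e f,
    PD (2 ^ u * m.nv i) (fun x => m.F p k i y r (fun j => X j x) u e f) := by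
  intro u
  induction u with
  | zero =>
    intro e f
    rw [pow_zero, one_mul]
    exact pd_fhat (m.nv i) (m.chk0 i y r e f) 0
      (X := fun j x => m.vars p i (fun j => X j x) (m.T p k (m.A e)) j)
      (fun j => pd_vars m i _ hX j)
  | succ u ih =>
    intro e f
    refine PD.sum (range (2 ^ m.σ))
      (f := fun g x => m.F p k i y r (fun j => X j x) u e g *
        m.F p k i y r (fun j => X j x) u g f) fun g _ => ?_
    have h1 := (ih e g).mul (ih g f)
    have h2 : 2 ^ u * m.nv i + 2 ^ u * m.nv i = 2 ^ (u + 1) * m.nv i := by ring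
    rw [h2] at h1
    exact h1

theorem pd_fc (m : Pool.Agent.Helper81.Tok2.Mach) (k i y r : ℕ)
    {X : ℕ → ZMod p → ZMod p} (hX : ∀ j, PD 1 (X j)) :
    PD ((2 ^ m.h + 1) * m.nv i) (fun x => m.fc p k i y r (fun j => X j x)) := by
  unfold Pool.Agent.Helper81.Tok2.Mach.fc
  have h1 := pd_F m k i y r hX m.h (dig (2 ^ m.σ) y (2 * r)) (dig (2 ^ m.σ) y (2 * r + 1))
  have h2 := pd_fhat (m.nv i) (m.chk1 i y r) 0
    (X := fun j x => m.vars p i (fun j => X j x)
      (m.T p k (m.A (dig (2 ^ m.σ) y (2 * r + 1)))) j)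
    (fun j => pd_vars m i _ hX j)
  have h3 := h1.mul h2
  have h4 : 2 ^ m.h * m.nv i + m.nv i = (2 ^ m.h + 1) * m.nv i := by ring
  rw [h4] at h3
  exact h3

theorem pd_P' (m : Pool.Agent.Helper81.Tok2.Mach) (hb : 0 < m.b) (k i u o : ℕ)
    {X : ℕ → ZMod p → ZMod p} (hX : ∀ j, PD 1 (X j)) (hi : i ≤ m.G) :
    PD (m.b * ((2 ^ m.h + 1) * m.nv m.G)) (fun x => m.P p k i u (fun j => X j x) o) := by
  have hnv : m.nv i ≤ m.nv m.G := by
    unfold Pool.Agent.Helper81.Tok2.Mach.nv
    exact Nat.add_le_add_right (Nat.mul_le_mul_right _ hi) _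
  unfold Pool.Agent.Helper81.Tok2.Mach.P
  by_cases hiG : i < m.G
  · simp only [hiG, if_true]
    refine PD.sum (range (2 ^ (m.σ * (2 * m.b + 1))))
      (f := fun y x => (∏ r ∈ range m.b, m.fc p k i y r (fun j => X j x)) *
          bitZ p (y / 2 ^ m.σ) o) fun y _ => ?_
    have h1 := PD.prod (range m.b) (d := fun _ => (2 ^ m.h + 1) * m.nv i)
      (f := fun r x => m.fc p k i y r (fun j => X j x)) (fun r _ => pd_fc m k i y r hX)
    rw [sum_const, card_range, smul_eq_mul] at h1
    have h2 := h1.mul (PD.const 0 (bitZ p (y / 2 ^ m.σ) o))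
    rw [Nat.add_zero] at h2
    exact h2.mono (Nat.mul_le_mul_left _ (Nat.mul_le_mul_left _ hnv))
  · simp only [hiG, if_false]
    have h1 := pd_fhat (m.nv m.G) (m.top u) o
      (X := fun j x => m.vars p m.G (fun j => X j x) (m.T p k u) j)
      (fun j => pd_vars m m.G (m.T p k u) hX j)
    refine h1.mono ?_
    refine (Nat.le_mul_of_pos_left _ (Nat.succ_pos (2 ^ m.h))).trans ?_
    exact Nat.le_mul_of_pos_left _ hb

end

theorem LINE : Pool.Agent.Helper81.Tok2.LINE_stmt := by
  intro m p _ hm hp k i u X V' o hi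
  obtain ⟨Q, hQ, hQe⟩ := pd_P' (p := p) m hm.hb k i u o
    (X := fun j x => x * X j + V' j) (fun j => PD.line _ _) hi
  have h1 := sum_eval_eq p (P := Q) (lt_of_le_of_lt hQ hp)
  simp only [hQe] at h1
  rw [h1]
  congr 2
  funext j
  ring

end Pool.Agent.Helper27.Tok2
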